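import Pool.Agent.L0h7.TW.Stm

/-! # Two elements with the same square in a torsion-free group (module TKL of helper7) -/

set_option autoImplicit false

open CategoryTheory

noncomputable section

namespace Pool.Agent.L0h78.TW

open Pool.Agent.Y75.NK Pool.Agent.L0h7.KN Pool.Agent.L0h7.RG Pool.Agent.L0h7.TW

/-- words in one letter -/
theorem word (w : FreeGroup (Fin 1)) : ∃ j : ℤ, w = FreeGroup.of 0 ^ j := by
  induction w using FreeGroup.induction_on with
  | C1 => exact ⟨0, by simp⟩
  | of s => exact ⟨1, by rw [zpow_one, Subsingleton.elim s 0]⟩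
  | inv_of s _ => exact ⟨-1, by rw [zpow_neg, zpow_one, Subsingleton.elim s 0]⟩
  | mul u v hu hv =>
    obtain ⟨i, hi⟩ := hu
    obtain ⟨j, hj⟩ := hv
    exact ⟨i + j, by rw [hi, hj, zpow_add]⟩

/-- the action by inversion -/
def invAut : MulAut (Multiplicative ℤ) := MulEquiv.inv (Multiplicative ℤ)

/-- the action of the free group -/
def act : FreeGroup (Fin 1) →* MulAut (Multiplicative ℤ) := FreeGroup.lift fun _ => invAut

section

variable {G : Type} [Group G] (x y : G)

theorem conj_pow (hxy : x * x = y * y) (k : ℤ) : x * (x * y⁻¹) ^ k * x⁻¹ = (x * y⁻¹) ^ (-k) := by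
  rw [← conj_zpow, zpow_neg, ← inv_zpow]
  congr 1
  rw [mul_inv_rev, inv_inv, ← mul_assoc, hxy]
  group

theorem conj_pow' (hxy : x * x = y * y) (k : ℤ) : x⁻¹ * (x * y⁻¹) ^ k * x = (x * y⁻¹) ^ (-k) := by
  have h := conj_pow x y hxy (-k)
  rw [neg_neg] at h
  rw [← h]
  group

/-- the homomorphism from the semidirect product -/
theorem comp_eq (hxy : x * x = y * y) (w : FreeGroup (Fin 1)) :
    (zpowersHom G (x * y⁻¹)).comp (act w).toMonoidHom =
      (MulAut.conj (FreeGroup.lift (fun _ : Fin 1 => x) w)).toMonoidHom.comp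
        (zpowersHom G (x * y⁻¹)) := by
  induction w using FreeGroup.induction_on with
  | C1 =>
    ext
    simp
  | of s =>
    refine MonoidHom.ext fun n => ?_
    have h := conj_pow x y hxy (Multiplicative.toAdd n)
    have e1 : (act (FreeGroup.of s)) n = n⁻¹ := by
      unfold act
      rw [FreeGroup.lift_apply_of]
      rfl
    show zpowersHom G (x * y⁻¹) (act (FreeGroup.of s) n) =
      FreeGroup.lift (fun _ : Fin 1 => x) (FreeGroup.of s) * zpowersHom G (x * y⁻¹) n *
        (FreeGroup.lift (fun _ : Fin 1 => x) (FreeGroup.of s))⁻¹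
    rw [e1, FreeGroup.lift_apply_of, map_inv, zpowersHom_apply, h, zpow_neg]
  | inv_of s _ =>
    refine MonoidHom.ext fun n => ?_
    have h := conj_pow' x y hxy (Multiplicative.toAdd n)
    have e1 : (act (FreeGroup.of s)⁻¹) n = n⁻¹ := by
      unfold act
      rw [map_inv, FreeGroup.lift_apply_of]
      rfl
    show zpowersHom G (x * y⁻¹) (act (FreeGroup.of s)⁻¹ n) =
      FreeGroup.lift (fun _ : Fin 1 => x) (FreeGroup.of s)⁻¹ * zpowersHom G (x * y⁻¹) n *
        (FreeGroup.lift (fun _ : Fin 1 => x) (FreeGroup.of s)⁻¹)⁻¹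
    rw [e1, map_inv (FreeGroup.lift (fun _ : Fin 1 => x)), FreeGroup.lift_apply_of, map_inv,
      zpowersHom_apply, inv_inv, h, zpow_neg]
  | mul u v hu hv =>
    refine MonoidHom.ext fun n => ?_
    have h1 := DFunLike.congr_fun hu ((act v) n)
    have h2 := DFunLike.congr_fun hv n
    have h1' : zpowersHom G (x * y⁻¹) (act u (act v n)) =
      FreeGroup.lift (fun _ : Fin 1 => x) u * zpowersHom G (x * y⁻¹) (act v n) *
        (FreeGroup.lift (fun _ : Fin 1 => x) u)⁻¹ := h1
    have h2' : zpowersHom G (x * y⁻¹) (act v n) =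
      FreeGroup.lift (fun _ : Fin 1 => x) v * zpowersHom G (x * y⁻¹) n *
        (FreeGroup.lift (fun _ : Fin 1 => x) v)⁻¹ := h2
    show zpowersHom G (x * y⁻¹) (act (u * v) n) =
      FreeGroup.lift (fun _ : Fin 1 => x) (u * v) * zpowersHom G (x * y⁻¹) n *
        (FreeGroup.lift (fun _ : Fin 1 => x) (u * v))⁻¹
    rw [map_mul act, MulAut.mul_apply, h1', h2', map_mul (FreeGroup.lift (fun _ : Fin 1 => x))]
    group

/-- the homomorphism from the semidirect product -/
def hom (hxy : x * x = y * y) : Multiplicative ℤ ⋊[act] FreeGroup (Fin 1) →* G :=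
  SemidirectProduct.lift (zpowersHom G (x * y⁻¹)) (FreeGroup.lift (fun _ : Fin 1 => x))
    (comp_eq x y hxy)

theorem hom_apply (hxy : x * x = y * y) (n : Multiplicative ℤ) (w : FreeGroup (Fin 1)) :
    hom x y hxy ⟨n, w⟩ = (x * y⁻¹) ^ (Multiplicative.toAdd n) *
      FreeGroup.lift (fun _ : Fin 1 => x) w := rfl

theorem hom_injective (hxy : x * x = y * y) (htf : ∀ g : G, ∀ k : ℕ, 0 < k → g ^ k = 1 → g = 1)
    (hne : x * y⁻¹ ≠ 1) : Function.Injective (hom x y hxy) := by
  have htz : ∀ g : G, ∀ k : ℤ, k ≠ 0 → g ^ k = 1 → g = 1 := by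
    intro g k hk hg
    refine htf g k.natAbs (Int.natAbs_pos.2 hk) ?_
    rcases Int.natAbs_eq k with h | h
    · rw [← zpow_natCast, ← h]
      exact hg
    · have : g ^ (-(k.natAbs : ℤ)) = 1 := by rw [← h]; exact hg
      rw [zpow_neg, inv_eq_one, zpow_natCast] at this
      exact this
  rw [injective_iff_map_eq_one]
  rintro ⟨n, w⟩ h
  rw [hom_apply] at h
  obtain ⟨j, hj⟩ := word w
  rw [hj, map_zpow, FreeGroup.lift_apply_of] at h
  have hc := conj_pow x y hxy (Multiplicative.toAdd n)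
  have h1 : (x * y⁻¹) ^ (Multiplicative.toAdd n) = x ^ (-j) := by
    rw [zpow_neg]
    exact eq_inv_of_mul_eq_one_left h
  have h2 : x * (x * y⁻¹) ^ (Multiplicative.toAdd n) * x⁻¹ = (x * y⁻¹) ^ (Multiplicative.toAdd n) := by
    rw [h1]
    group
  rw [h2] at hc
  have hn : Multiplicative.toAdd n = 0 := by
    by_contra hn
    have h3 : (x * y⁻¹) ^ (Multiplicative.toAdd n + Multiplicative.toAdd n) = 1 := by
      rw [zpow_add]
      nth_rw 2 [hc]
      rw [zpow_neg, mul_inv_cancel]
    exact hne (htz _ _ (by omega) h3)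
  rw [hn, zpow_zero, one_mul] at h
  have hj0 : j = 0 := by
    by_contra hj0
    have hx1 := htz x j hj0 h
    apply hne
    rw [hx1, one_mul] at hxy
    rw [hx1, one_mul, inv_eq_one]
    exact htf y 2 (by norm_num) (by rw [sq, ← hxy])
  have hn1 : n = 1 := by
    rw [← ofAdd_toAdd n, hn]
    rfl
  rw [hj, hj0, hn1, zpow_zero]
  rfl

theorem hom_range (hxy : x * x = y * y) : (hom x y hxy).range = Subgroup.closure {x, y} := by
  have hx : hom x y hxy ⟨1, FreeGroup.of 0⟩ = x := by
    rw [hom_apply, FreeGroup.lift_apply_of]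
    simp
  have ha : hom x y hxy ⟨Multiplicative.ofAdd 1, 1⟩ = x * y⁻¹ := by
    rw [hom_apply]
    simp
  apply le_antisymm
  · rintro _ ⟨⟨n, w⟩, rfl⟩
    have hxm : x ∈ Subgroup.closure {x, y} := Subgroup.subset_closure (by simp)
    have hym : y ∈ Subgroup.closure {x, y} := Subgroup.subset_closure (by simp)
    obtain ⟨j, hj⟩ := word w
    rw [hom_apply, hj, map_zpow, FreeGroup.lift_apply_of]
    exact mul_mem (zpow_mem (mul_mem hxm (inv_mem hym)) _) (zpow_mem hxm _)
  · rw [Subgroup.closure_le]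
    have hxr : x ∈ (hom x y hxy).range := ⟨_, hx⟩
    have har : x * y⁻¹ ∈ (hom x y hxy).range := ⟨_, ha⟩
    intro z hz
    rcases hz with rfl | hz
    · exact hxr
    · rw [Set.mem_singleton_iff] at hz
      rw [hz]
      have h3 := mul_mem (inv_mem har) hxr
      have h4 : (x * y⁻¹)⁻¹ * x = y := by group
      rwa [h4] at h3

end

theorem t_TKL (hTSD : S_TSD) (hTRZ : S_TRZ) (hRGZ : S_RGZ) (hRIS : S_RIS) (hKNR : S_KNR)
    (hKTA : S_KTA) : S_TKL := by
  intro R _ hR G hG x y hxy m z
  by_cases hne : x * y⁻¹ = 1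
  · have hy : x = y := by rwa [mul_inv_eq_one] at hne
    subst hy
    refine hKTA R hR _ ?_ ?_ m z
    · intro a b
      apply Subtype.ext
      have hcl : Subgroup.closure ({x, x} : Set G) = Subgroup.zpowers x := by
        rw [Set.pair_eq_singleton, Subgroup.zpowers_eq_closure]
      have h1 : (a : G) ∈ Subgroup.zpowers x := by rw [← hcl]; exact a.2
      have h2 : (b : G) ∈ Subgroup.zpowers x := by rw [← hcl]; exact b.2
      obtain ⟨i, hi⟩ := h1
      obtain ⟨j, hj⟩ := h2
      show (a : G) * b = b * a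
      rw [← hi, ← hj]
      show x ^ i * x ^ j = x ^ j * x ^ i
      rw [← zpow_add, ← zpow_add, add_comm]
    · intro g k hk hg
      apply Subtype.ext
      apply hG (g : G) k hk
      have := congrArg (Subtype.val) hg
      simpa using this
  · have hinj := hom_injective x y hxy hG hne
    have e : Multiplicative ℤ ⋊[act] FreeGroup (Fin 1) ≃* Subgroup.closure ({x, y} : Set G) :=
      (MonoidHom.ofInjective hinj).trans (MulEquiv.subgroupCongr (hom_range x y hxy))
    obtain ⟨inst, ⟨e1⟩⟩ := hTSD R (Multiplicative ℤ) (FreeGroup (Fin 1)) act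
    have h1 : Reg (MonoidAlgebra R (Multiplicative ℤ)) := hRGZ R hR
    have h2 : Reg (SkewMonoidAlgebra (MonoidAlgebra R (Multiplicative ℤ)) (FreeGroup (Fin 1))) :=
      hTRZ _ h1
    have h3 : Reg (MonoidAlgebra R (Multiplicative ℤ ⋊[act] FreeGroup (Fin 1))) :=
      hRIS _ _ ⟨e1⟩ h2
    have h4 : Reg (MonoidAlgebra R (Subgroup.closure ({x, y} : Set G))) :=
      hRIS _ _ ⟨MonoidAlgebra.mapDomainRingEquiv R e⟩ h3
    exact hKNR _ h4 m z

end Pool.Agent.L0h78.TW
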